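import Mathlib

namespace Pool.Agent.Results.MP_d5c8f2_an.Counterexample

open scoped InnerProductSpace

variable {H : Type} [NormedAddCommGroup H] [InnerProductSpace ℂ H]

/-- `T` is isometric on the orthogonal complement of its kernel. -/
def IsPartialIsometry (T : H →L[ℂ] H) : Prop :=
  ∀ x ∈ (LinearMap.ker (T : H →ₗ[ℂ] H))ᗮ, ‖T x‖ = ‖x‖

/-- A subspace is zero or infinite-dimensional. -/
def ZeroOrInfinite (M : Submodule ℂ H) : Prop := M = ⊥ ∨ ¬ FiniteDimensional ℂ M

/-- Condition (N). -/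
def CondN (T : H →L[ℂ] H) : Prop :=
  ZeroOrInfinite (LinearMap.ker (T : H →ₗ[ℂ] H)) ∧
    ZeroOrInfinite (LinearMap.range (T : H →ₗ[ℂ] H))ᗮ

/-- `T = S 1` for a `C₀`-semigroup `S`. -/
def Embeddable (T : H →L[ℂ] H) : Prop :=
  ∃ S : NNReal → H →L[ℂ] H, S 0 = 1 ∧ (∀ s t, S (t + s) = S t * S s) ∧
    (∀ x, Continuous fun t => S t x) ∧ S 1 = T

theorem inf_orth [h : Fact (¬ FiniteDimensional ℂ H)] (v : H) :
    ¬ FiniteDimensional ℂ (ℂ ∙ v)ᗮ := by
  intro hf
  apply h.out
  have := Submodule.sup_orthogonal_of_hasOrthogonalProjection (K := ℂ ∙ v)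
  have h2 : FiniteDimensional ℂ (⊤ : Submodule ℂ H) := by
    rw [← this]; infer_instance
  exact Module.Finite.equiv (Submodule.topEquiv (R := ℂ) (M := H))

theorem general [Fact (¬ FiniteDimensional ℂ H)] (u v : H) (hu : ‖u‖ = 1) (hv : ‖v‖ = 1)
    (huv : ⟪v, u⟫_ℂ = 0) :
    ∃ T : H →L[ℂ] H, IsPartialIsometry T ∧ CondN T ∧ ¬ Embeddable T := by
  have hu0 : u ≠ 0 := by rintro rfl; simp at hu
  have hvv : ⟪v, v⟫_ℂ = 1 := by rw [inner_self_eq_norm_sq_to_K, hv]; simp
  let T : H →L[ℂ] H := (innerSL ℂ v).smulRight u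
  have hT : ∀ x, T x = ⟪v, x⟫_ℂ • u := fun x => rfl
  have hker : LinearMap.ker (T : H →ₗ[ℂ] H) = (ℂ ∙ v)ᗮ := by
    ext x
    rw [LinearMap.mem_ker, Submodule.mem_orthogonal_singleton_iff_inner_right]
    show T x = 0 ↔ _
    rw [hT, smul_eq_zero]
    simp [hu0]
  have hrg : LinearMap.range (T : H →ₗ[ℂ] H) = ℂ ∙ u := by
    ext x
    rw [LinearMap.mem_range, Submodule.mem_span_singleton]
    constructor
    · rintro ⟨y, rfl⟩; exact ⟨_, (hT y).symm⟩
    · rintro ⟨c, rfl⟩
      refine ⟨c • v, ?_⟩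
      show T (c • v) = _
      rw [hT, inner_smul_right, hvv, mul_one]
  refine ⟨T, ?_, ⟨Or.inr ?_, Or.inr ?_⟩, ?_⟩
  · intro x hx
    rw [hker, Submodule.orthogonal_orthogonal, Submodule.mem_span_singleton] at hx
    obtain ⟨c, rfl⟩ := hx
    rw [hT, inner_smul_right, hvv, mul_one, norm_smul, norm_smul, hu, hv]
  · rw [hker]; exact inf_orth v
  · rw [hrg]; exact inf_orth u
  · rintro ⟨S, h0, hadd, hcont, h1⟩
    have hTv : T v = u := by rw [hT, hvv, one_smul]
    have hTu : T u = 0 := by rw [hT, huv, zero_smul]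
    have eig : ∀ t, S t u = ⟪v, S t v⟫_ℂ • u := by
      intro t
      have e : S t * S 1 = S 1 * S t := by rw [← hadd, ← hadd, add_comm]
      have := congrArg (fun A : H →L[ℂ] H => A v) e
      simp only [h1, ContinuousLinearMap.mul_apply, hTv] at this
      rw [this, hT]
    have half : ∀ t, S (t + t) u = 0 → S t u = 0 := by
      intro t ht
      rw [hadd, ContinuousLinearMap.mul_apply, eig t, map_smul, eig t, smul_smul, smul_eq_zero,
        mul_self_eq_zero] at ht
      rw [eig t, ht.resolve_right hu0, zero_smul]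
    have key : ∀ n : ℕ, S ((1 / 2) ^ n) u = 0 := by
      intro n
      induction n with
      | zero => rw [pow_zero, h1, hTu]
      | succ n ih =>
        apply half
        rw [← ih, pow_succ, ← mul_add, add_halves, mul_one]
    have lim : Filter.Tendsto (fun n : ℕ => S ((1 / 2) ^ n) u) Filter.atTop (nhds (S 0 u)) :=
      ((hcont u).tendsto 0).comp (NNReal.tendsto_pow_atTop_nhds_zero_of_lt_one (by norm_num))
    simp only [key, h0, ContinuousLinearMap.one_apply] at lim
    exact hu0 (tendsto_nhds_unique lim tendsto_const_nhds)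

/-- A partial isometry satisfying (N) need not embed into a `C₀`-semigroup. -/
theorem result : ¬ ∀ (H : Type) [NormedAddCommGroup H] [InnerProductSpace ℂ H] [CompleteSpace H]
    (T : H →L[ℂ] H), IsPartialIsometry T → CondN T → Embeddable T := by
  intro h
  have ho := (default : HilbertBasis ℕ ℂ (lp (fun _ : ℕ => ℂ) 2)).orthonormal
  haveI : Fact (¬ FiniteDimensional ℂ (lp (fun _ : ℕ => ℂ) 2)) := ⟨fun hf =>
    (Module.Finite.not_linearIndependent_of_infinite _) ho.linearIndependent⟩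
  obtain ⟨T, h1, h2, h3⟩ := general _ _ (ho.1 0) (ho.1 1) (ho.2 (by norm_num))
  exact h3 (h _ T h1 h2)

end Pool.Agent.Results.MP_d5c8f2_an.Counterexample
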